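import Pool.Agent.Q86.OpenSemi

set_option autoImplicit false

open Pool.Agent.Q86.DiscAlg Filter Topology

/-- An open semigroup `S` in a commutative unital Banach algebra and `a ∈ S` for which
`d (a ^ n) ^ (1 / n)` does not converge, where `d` is the distance to the complement of `S`. -/
theorem Pool.Agent.Results.MP_b2b51b_an.NoLimit.result :
    ∃ (A : Type) (_ : NormedCommRing A) (_ : NormedAlgebra ℂ A) (_ : CompleteSpace A)
      (S : Set A) (a : A), ‖(1 : A)‖ = 1 ∧ IsOpen S ∧ S ≠ Set.univ ∧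
      (∀ x ∈ S, ∀ y ∈ S, x * y ∈ S) ∧ a ∈ S ∧
      ¬ ∃ L : ℝ, Tendsto (fun n : ℕ => Metric.infDist (a ^ n) Sᶜ ^ (1 / (n : ℝ))) atTop (𝓝 L) :=
  ⟨A, inferInstance, inferInstance, inferInstance, S, Z, norm_one_A, isOpen_S,
    fun h => zero_notMem (h ▸ Set.mem_univ _), fun _ hx _ hy => mul_mem_S hx hy, Z_mem, no_limit⟩
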